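import Pool.Agent.BES.Stmts

/-!
# Squad BES, row SCO: the functions `g(ρ) H`, `g(R²) = 0`, are in `H^1_0` of the sector
-/

set_option autoImplicit false

namespace Pool.Agent.BES.H15

open Set Filter Topology MeasureTheory
open scoped InnerProductSpace ENNReal
open Pool.Agent.BE01

theorem norm_grad (f : En 2 → ℝ) (x : En 2) : ‖gradient f x‖ = ‖fderiv ℝ f x‖ := by
  unfold gradient
  exact LinearIsometryEquiv.norm_map _ _

theorem mj_pos (m j : ℕ) : 0 < mj m j := by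
  unfold mj
  positivity

theorem gsm {g : ℝ → ℝ} (hg : ContDiff ℝ ((⊤ : ℕ∞) : WithTop ℕ∞) g) :
    ContDiff ℝ ((⊤ : ℕ∞) : WithTop ℕ∞) (fun x : En 2 => g (‖x‖ ^ 2)) :=
  hg.comp (contDiff_norm_sq ℝ)

theorem vsm (hS : HsmStmt) (μ : ℝ) {g : ℝ → ℝ} (hg : ContDiff ℝ ((⊤ : ℕ∞) : WithTop ℕ∞) g) :
    ContDiffOn ℝ ((⊤ : ℕ∞) : WithTop ℕ∞) (fun y => g (‖y‖ ^ 2) * Hf μ y) Slt :=
  (gsm hg).contDiffOn.mul (hS μ).2.1

theorem sec_ball (m : ℕ) (R : ℝ) : Sec m R ⊆ Metric.ball (0 : En 2) R := by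
  intro x hx
  rw [mem_ball_zero_iff]
  exact hx.1

theorem gradL2 (hC : HctStmt) (hD : SdoStmt) (hS : HsmStmt) (hN : NriStmt) (m : ℕ) (μ R : ℝ)
    (hμ : 0 < μ) (hR : 0 < R) {g : ℝ → ℝ} (hg : ContDiff ℝ ((⊤ : ℕ∞) : WithTop ℕ∞) g) :
    MemLp (gradient (fun y => g (‖y‖ ^ 2) * Hf μ y)) 2 (mu (Sec m R)) := by
  obtain ⟨⟨hop, -, -⟩, hsl, -⟩ := hD m R hR
  obtain ⟨hSo, hHs, hHg⟩ := hS μ
  have hK : IsCompact (Metric.closedBall (0 : En 2) R) := isCompact_closedBall _ _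
  obtain ⟨C1, hC1⟩ := hK.exists_bound_of_continuousOn (gsm hg).continuous.continuousOn
  obtain ⟨C2, hC2⟩ := hK.exists_bound_of_continuousOn
    ((gsm hg).continuous_fderiv (by simp)).continuousOn
  have hfin : IsFiniteMeasure (mu (Sec m R)) := by
    refine ⟨?_⟩
    rw [mu, Measure.restrict_apply_univ]
    exact (measure_mono (sec_ball m R)).trans_lt measure_ball_lt_top
  have hle : mu (Sec m R) ≤ mu (Metric.ball (0 : En 2) R) := Measure.restrict_mono (sec_ball m R) le_rfl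
  have hb : MemLp (fun x : En 2 => C1 * |μ| * ‖x‖ ^ (μ - 1) + R ^ μ * C2) 2 (mu (Sec m R)) :=
    (((hN μ R hμ).mono_measure hle).const_mul (C1 * |μ|)).add (memLp_const _)
  have hmeas : AEStronglyMeasurable (gradient (fun y => g (‖y‖ ^ 2) * Hf μ y))
      (mu (Sec m R)) := by
    refine ContinuousOn.aestronglyMeasurable ?_ hop.measurableSet
    have h1 : ContinuousOn (fderiv ℝ (fun y => g (‖y‖ ^ 2) * Hf μ y)) Slt :=
      (vsm hS μ hg).continuousOn_fderiv_of_isOpen hSo (by simp)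
    unfold gradient
    exact ((LinearIsometryEquiv.continuous _).comp_continuousOn h1).mono hsl
  refine MemLp.mono' hb hmeas ?_
  rw [mu]
  refine (ae_restrict_iff' hop.measurableSet).2 (Filter.Eventually.of_forall fun x hx => ?_)
  have hxS := hsl hx
  have hxR : ‖x‖ < R := hx.1
  have hxb : x ∈ Metric.closedBall (0 : En 2) R := by
    rw [mem_closedBall_zero_iff]
    exact hxR.le
  have hd1 : DifferentiableAt ℝ (fun y : En 2 => g (‖y‖ ^ 2)) x :=
    (gsm hg).differentiable (by simp) x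
  have hd2 : DifferentiableAt ℝ (Hf μ) x :=
    (hHs.contDiffAt (hSo.mem_nhds hxS)).differentiableAt (by simp)
  have hf : fderiv ℝ (fun y => g (‖y‖ ^ 2) * Hf μ y) x =
      g (‖x‖ ^ 2) • fderiv ℝ (Hf μ) x + Hf μ x • fderiv ℝ (fun y : En 2 => g (‖y‖ ^ 2)) x :=
    (hd1.hasFDerivAt.mul hd2.hasFDerivAt).fderiv
  have hH : |Hf μ x| ≤ R ^ μ :=
    ((hC.1 μ hμ).2 x).trans (Real.rpow_le_rpow (norm_nonneg _) hxR.le hμ.le)
  rw [norm_grad, hf]
  refine (norm_add_le _ _).trans (add_le_add ?_ ?_)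
  · rw [norm_smul, ← norm_grad, (hHg x hxS).2, mul_assoc]
    exact mul_le_mul_of_nonneg_right (hC1 x hxb) (by positivity)
  · rw [norm_smul]
    exact mul_le_mul hH (hC2 x hxb) (norm_nonneg _) (by positivity)

theorem sco (hC : HctStmt) (hP : HpoStmt) (hD : SdoStmt) (hS : HsmStmt) (hG : GcfStmt)
    (hN : NriStmt) : ScoStmt := by
  intro m j R g hR hg hg0
  obtain ⟨hdom, hsl, -⟩ := hD m R hR
  obtain ⟨hop, -, -⟩ := hdom
  have hgv := gradL2 hC hD hS hN m (mj m j) R (mj_pos m j) hR hg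
  refine ⟨hgv, ?_⟩
  have hg1 : ContDiff ℝ ((⊤ : ℕ∞) : WithTop ℕ∞) (fun t : ℝ => R ^ 2 - t) :=
    contDiff_const.sub contDiff_id
  have hgd := gradL2 hC hD hS hN m (mj m 0) R (mj_pos m 0) hR hg1
  have cH0 := (hC.1 (mj m 0) (mj_pos m 0)).1
  have cH := (hC.1 (mj m j) (mj_pos m j)).1
  have hK : IsCompact (Metric.closedBall (0 : En 2) R) := isCompact_closedBall _ _
  have hfin : IsFiniteMeasure (mu (Sec m R)) := by
    refine ⟨?_⟩
    rw [mu, Measure.restrict_apply_univ]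
    exact (measure_mono (sec_ball m R)).trans_lt measure_ball_lt_top
  -- the bound of `g`
  obtain ⟨M, hM⟩ := (isCompact_Icc (a := (0 : ℝ)) (b := R ^ 2)).exists_bound_of_continuousOn
    (hg.continuous_deriv (by simp)).continuousOn
  have hgb : ∀ t ∈ Icc (0 : ℝ) (R ^ 2), |g t| ≤ M * (R ^ 2 - t) := by
    intro t ht
    have h1 := (convex_Icc (0 : ℝ) (R ^ 2)).norm_image_sub_le_of_norm_deriv_le
      (f := g) (C := M) (fun x _ => hg.differentiable (by simp) x) (fun x hx => hM x hx)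
      (right_mem_Icc.2 (by positivity)) ht
    rw [hg0, sub_zero, Real.norm_eq_abs, Real.norm_eq_abs, abs_sub_comm,
      abs_of_nonneg (show 0 ≤ R ^ 2 - t by linarith [ht.2])] at h1
    exact h1
  have he : 0 ≤ mj m j - mj m 0 := by
    have : mj m j - mj m 0 = j * (2 * m + 1) := by
      unfold mj
      push_cast
      ring
    rw [this]
    positivity
  refine hG 2 (Sec m R) (fun x => (R ^ 2 - ‖x‖ ^ 2) * Hf (mj m 0) x)
    (fun y => g (‖y‖ ^ 2) * Hf (mj m j) y) (M * ((2 * j + 1) * R ^ (mj m j - mj m 0)))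
    (hD m R hR).1 ((vsm hS (mj m 0) hg1).mono hsl) ((vsm hS (mj m j) hg).mono hsl) ?_ ?_ ?_ ?_
    hgd hgv
  · intro x hx
    have h1 : ‖x‖ < R := hx.1
    have h2 := ((hP m).1 R x hx).1
    have h3 : 0 < R ^ 2 - ‖x‖ ^ 2 := by nlinarith [norm_nonneg x]
    exact mul_pos h3 h2
  · intro ε hε
    have hset : {x : En 2 | x ∈ Sec m R ∧ ε ≤ (R ^ 2 - ‖x‖ ^ 2) * Hf (mj m 0) x} =
        {x : En 2 | ‖x‖ ≤ R} ∩ ({x : En 2 | ‖x‖ * Real.cos (al m) ≤ x 0} ∩
          {x : En 2 | ε ≤ (R ^ 2 - ‖x‖ ^ 2) * Hf (mj m 0) x}) := by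
      ext x
      constructor
      · rintro ⟨⟨h1, h2⟩, h3⟩
        exact ⟨h1.le, h2.le, h3⟩
      · rintro ⟨h1, h2, h3⟩
        refine ⟨⟨lt_of_le_of_ne h1 fun h => ?_, lt_of_le_of_ne h2 fun h => ?_⟩, h3⟩
        · rw [mem_setOf_eq, h, sub_self, zero_mul] at h3
          linarith
        · rw [mem_setOf_eq, (hP m).2 x h, mul_zero] at h3
          linarith
    rw [hset]
    refine Metric.isCompact_of_isClosed_isBounded ?_ ?_
    · refine IsClosed.inter ?_ (IsClosed.inter ?_ ?_)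
      · exact isClosed_le continuous_norm continuous_const
      · exact isClosed_le (by fun_prop) (by fun_prop)
      · exact isClosed_le continuous_const ((by fun_prop : Continuous fun x : En 2 =>
          R ^ 2 - ‖x‖ ^ 2).mul cH0)
    · refine (Metric.isBounded_closedBall (x := (0 : En 2)) (r := R)).subset ?_
      rintro x ⟨h1, -⟩
      rw [mem_closedBall_zero_iff]
      exact h1
  · intro x hx
    have h1 : ‖x‖ < R := hx.1
    obtain ⟨h2, h3⟩ := (hP m).1 R x hx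
    have h4 : ‖x‖ ^ 2 ≤ R ^ 2 := by nlinarith [norm_nonneg x]
    have h5 := hgb (‖x‖ ^ 2) ⟨by positivity, h4⟩
    have h6 : ‖x‖ ^ (mj m j - mj m 0) ≤ R ^ (mj m j - mj m 0) :=
      Real.rpow_le_rpow (norm_nonneg _) h1.le he
    have h7 : |Hf (mj m j) x| ≤ (2 * j + 1) * R ^ (mj m j - mj m 0) * Hf (mj m 0) x := by
      refine (h3 j).trans (mul_le_mul_of_nonneg_right ?_ h2.le)
      exact mul_le_mul_of_nonneg_left h6 (by positivity)
    rw [abs_mul]
    calc |g (‖x‖ ^ 2)| * |Hf (mj m j) x|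
        ≤ (M * (R ^ 2 - ‖x‖ ^ 2)) * ((2 * j + 1) * R ^ (mj m j - mj m 0) * Hf (mj m 0) x) :=
          mul_le_mul h5 h7 (abs_nonneg _) (le_trans (abs_nonneg _) h5)
      _ = _ := by ring
  · obtain ⟨C, hCb⟩ := hK.exists_bound_of_continuousOn
      ((gsm hg).continuous.mul cH).continuousOn
    refine MemLp.of_bound ((gsm hg).continuous.mul cH).aestronglyMeasurable C ?_
    rw [mu]
    refine (ae_restrict_iff' hop.measurableSet).2 (Filter.Eventually.of_forall fun x hx => ?_)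
    refine hCb x ?_
    rw [mem_closedBall_zero_iff]
    exact hx.1.le

end Pool.Agent.BES.H15
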